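import Mathlib

/-!
# Drazin invertibility of completions of triangular operator matrices: both weakenings
-/

namespace Pool.Agent.Results.MP_632fda_an.Weakenings

open scoped ENNReal

/-! ### Definitions -/

section Defs

variable {E : Type} [AddCommGroup E] [Module ℂ E]

/-- The ascent: the least `k` with `N(T^(k+1)) = N(T^k)`, or `⊤` if there is none. -/
noncomputable def asc (T : E →ₗ[ℂ] E) : ℕ∞ :=
  sInf {k : ℕ∞ | ∃ n : ℕ, k = n ∧ LinearMap.ker (T ^ (n + 1)) = LinearMap.ker (T ^ n)}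

/-- The descent: the least `k` with `R(T^(k+1)) = R(T^k)`, or `⊤` if there is none. -/
noncomputable def dsc (T : E →ₗ[ℂ] E) : ℕ∞ :=
  sInf {k : ℕ∞ | ∃ n : ℕ, k = n ∧ LinearMap.range (T ^ (n + 1)) = LinearMap.range (T ^ n)}

/-- `T` is Drazin invertible: ascent and descent are both finite. -/
def Drazin (T : E →ₗ[ℂ] E) : Prop := asc T < ⊤ ∧ dsc T < ⊤

variable {H K : Type} [NormedAddCommGroup H] [InnerProductSpace ℂ H]
  [NormedAddCommGroup K] [InnerProductSpace ℂ K]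

/-- `T` is left Drazin invertible: finite ascent and closed `R(T^(asc T + 1))`. -/
def LeftDrazin (T : H →L[ℂ] H) : Prop :=
  ∃ n : ℕ, asc (T : H →ₗ[ℂ] H) = n ∧
    IsClosed (LinearMap.range ((T : H →ₗ[ℂ] H) ^ (n + 1)) : Set H)

/-- `T` is right Drazin invertible: finite descent and closed `R(T^(dsc T))`. -/
def RightDrazin (T : H →L[ℂ] H) : Prop :=
  ∃ n : ℕ, dsc (T : H →ₗ[ℂ] H) = n ∧
    IsClosed (LinearMap.range ((T : H →ₗ[ℂ] H) ^ n) : Set H)

/-- Dimension in `{0, 1, 2, …, ∞}`. -/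
noncomputable def dimInf (M : Submodule ℂ H) : ℕ∞ := Cardinal.toENat (Module.rank ℂ M)

/-- `n(T) = dim N(T)`. -/
noncomputable def nul (T : H →L[ℂ] H) : ℕ∞ := dimInf (LinearMap.ker (T : H →ₗ[ℂ] H))

/-- `d(T) = dim R(T)^⊥`. -/
noncomputable def dfc (T : H →L[ℂ] H) : ℕ∞ := dimInf ((LinearMap.range (T : H →ₗ[ℂ] H))ᗮ)

/-- Condition (iii): `d(A - μ) = n(B - μ)` for all `0 < |μ| < δ`, for some `δ > 0`. -/
def CondIII (A : H →L[ℂ] H) (B : K →L[ℂ] K) : Prop :=
  ∃ δ : ℝ, 0 < δ ∧ ∀ μ : ℂ, 0 < ‖μ‖ → ‖μ‖ < δ →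
    dfc (A - μ • ContinuousLinearMap.id ℂ H) = nul (B - μ • ContinuousLinearMap.id ℂ K)

/-- `𝒮 = R(A) + N(A^p)`. -/
def SS (A : H →L[ℂ] H) (p : ℕ) : Submodule ℂ H :=
  LinearMap.range (A : H →ₗ[ℂ] H) ⊔ LinearMap.ker ((A : H →ₗ[ℂ] H) ^ p)

/-- `𝒯` is the closure of `N(B) ∩ R(B^p)`. -/
def TT (B : K →L[ℂ] K) (p : ℕ) : Submodule ℂ K :=
  (LinearMap.ker (B : K →ₗ[ℂ] K) ⊓ LinearMap.range ((B : K →ₗ[ℂ] K) ^ p)).topologicalClosure

/-- Condition (E): `𝒮` is closed and `dim 𝒮^⊥ = dim 𝒯`. -/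
def CondE (A : H →L[ℂ] H) (B : K →L[ℂ] K) (p : ℕ) : Prop :=
  IsClosed (SS A p : Set H) ∧ dimInf ((SS A p)ᗮ) = dimInf (TT B p)

/-- `C` is admissible: `C = J` on `𝒯` for an invertible `J ∈ B(𝒯, 𝒮^⊥)` and `C = 0` on `𝒯^⊥`. -/
def Admissible (A : H →L[ℂ] H) (B : K →L[ℂ] K) (p : ℕ) (C : K →L[ℂ] H) : Prop :=
  ∃ J : TT B p ≃L[ℂ] ((SS A p)ᗮ : Submodule ℂ H),
    (∀ x : TT B p, C x = J x) ∧ ∀ x ∈ (TT B p)ᗮ, C x = 0

/-- The operator matrix `M_C = [[A, C], [0, B]]` on `H ⊕ K`. -/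
def mat (A : H →L[ℂ] H) (B : K →L[ℂ] K) (C : K →L[ℂ] H) : (H × K) →ₗ[ℂ] (H × K) :=
  LinearMap.prod ((A : H →ₗ[ℂ] H) ∘ₗ LinearMap.fst ℂ H K + (C : K →ₗ[ℂ] H) ∘ₗ LinearMap.snd ℂ H K)
    ((B : K →ₗ[ℂ] K) ∘ₗ LinearMap.snd ℂ H K)

/-- `(A, B)` violates the assertion of Q1: the hypotheses hold and, for every `p ≥ 1`, one has
`p ≥ asc A, dsc B`, condition (E), and admissible `C` exist, but no admissible `C` makes `M_C`
Drazin invertible. -/
def Q1Fails (A : H →L[ℂ] H) (B : K →L[ℂ] K) : Prop :=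
  LeftDrazin A ∧ dsc (B : K →ₗ[ℂ] K) < ⊤ ∧ CondIII A B ∧ ∀ p : ℕ, 1 ≤ p →
    asc (A : H →ₗ[ℂ] H) ≤ p ∧ dsc (B : K →ₗ[ℂ] K) ≤ p ∧ CondE A B p ∧
      (∃ C : K →L[ℂ] H, Admissible A B p C) ∧
      ∀ C : K →L[ℂ] H, Admissible A B p C → ¬ Drazin (mat A B C)

/-- The assertion of Q2 for `(A, B)` (without condition (iii)): if `p ≥ 1`, `p ≥ asc A, dsc B`,
`B` is right Drazin invertible and (E) holds, then `M_C` is Drazin invertible for every
admissible `C`. -/
def Q2Holds (A : H →L[ℂ] H) (B : K →L[ℂ] K) : Prop :=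
  ∀ p : ℕ, 1 ≤ p → asc (A : H →ₗ[ℂ] H) ≤ p → dsc (B : K →ₗ[ℂ] K) ≤ p → RightDrazin B →
    CondE A B p → ∀ C : K →L[ℂ] H, Admissible A B p C → Drazin (mat A B C)

end Defs

/-! ### Ascent and descent -/

section AscDsc

variable {E : Type} [AddCommGroup E] [Module ℂ E]

theorem ker_stable (T : E →ₗ[ℂ] E) {n : ℕ}
    (h : LinearMap.ker (T ^ (n + 1)) = LinearMap.ker (T ^ n)) (k : ℕ) :
    LinearMap.ker (T ^ (n + k)) = LinearMap.ker (T ^ n) := by
  induction k with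
  | zero => rfl
  | succ k ih =>
    apply le_antisymm
    · intro x hx
      have h1 : (T ^ (n + (k + 1))) x = (T ^ (n + k)) (T x) := by
        rw [show n + (k + 1) = (n + k) + 1 by ring, pow_succ]; rfl
      have h2 : T x ∈ LinearMap.ker (T ^ (n + k)) := by
        rw [LinearMap.mem_ker, ← h1]; exact hx
      rw [ih] at h2
      rw [← h, LinearMap.mem_ker, pow_succ]
      exact h2
    · intro x hx
      rw [LinearMap.mem_ker] at hx ⊢
      rw [add_comm, pow_add]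
      show (T ^ (k + 1)) ((T ^ n) x) = 0
      rw [hx, map_zero]

theorem range_stable (T : E →ₗ[ℂ] E) {n : ℕ}
    (h : LinearMap.range (T ^ (n + 1)) = LinearMap.range (T ^ n)) (k : ℕ) :
    LinearMap.range (T ^ (n + k)) = LinearMap.range (T ^ n) := by
  induction k with
  | zero => rfl
  | succ k ih =>
    apply le_antisymm
    · rintro _ ⟨x, rfl⟩
      rw [pow_add]
      exact ⟨(T ^ (k + 1)) x, rfl⟩
    · intro x hx
      rw [← h] at hx
      obtain ⟨y, rfl⟩ := hx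
      have h1 : (T ^ (n + 1)) y = T ((T ^ n) y) := by rw [pow_succ']; rfl
      have h2 : (T ^ n) y ∈ LinearMap.range (T ^ (n + k)) := by rw [ih]; exact ⟨y, rfl⟩
      obtain ⟨z, hz⟩ := h2
      refine ⟨z, ?_⟩
      rw [h1, ← hz, show n + (k + 1) = (n + k) + 1 by ring, pow_succ' T (n + k)]
      rfl

theorem asc_le_iff (T : E →ₗ[ℂ] E) (p : ℕ) :
    asc T ≤ p ↔ LinearMap.ker (T ^ (p + 1)) = LinearMap.ker (T ^ p) := by
  constructor
  · intro h
    have hne : {k : ℕ∞ | ∃ n : ℕ, k = n ∧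
        LinearMap.ker (T ^ (n + 1)) = LinearMap.ker (T ^ n)}.Nonempty := by
      by_contra hne
      rw [Set.not_nonempty_iff_eq_empty] at hne
      unfold asc at h
      rw [hne, sInf_empty] at h
      exact absurd (lt_of_le_of_lt h (ENat.natCast_lt_top p)) (lt_irrefl _)
    obtain ⟨n, hn, hk⟩ := csInf_mem hne
    unfold asc at h
    rw [hn] at h
    have hnp : n ≤ p := by exact_mod_cast h
    obtain ⟨k, rfl⟩ := Nat.exists_eq_add_of_le hnp
    rw [ker_stable T hk, add_assoc, ker_stable T hk]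
  · intro h
    exact sInf_le ⟨p, rfl, h⟩

theorem dsc_le_iff (T : E →ₗ[ℂ] E) (p : ℕ) :
    dsc T ≤ p ↔ LinearMap.range (T ^ (p + 1)) = LinearMap.range (T ^ p) := by
  constructor
  · intro h
    have hne : {k : ℕ∞ | ∃ n : ℕ, k = n ∧
        LinearMap.range (T ^ (n + 1)) = LinearMap.range (T ^ n)}.Nonempty := by
      by_contra hne
      rw [Set.not_nonempty_iff_eq_empty] at hne
      unfold dsc at h
      rw [hne, sInf_empty] at h
      exact absurd (lt_of_le_of_lt h (ENat.natCast_lt_top p)) (lt_irrefl _)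
    obtain ⟨n, hn, hk⟩ := csInf_mem hne
    unfold dsc at h
    rw [hn] at h
    have hnp : n ≤ p := by exact_mod_cast h
    obtain ⟨k, rfl⟩ := Nat.exists_eq_add_of_le hnp
    rw [range_stable T hk, add_assoc, range_stable T hk]
  · intro h
    exact sInf_le ⟨p, rfl, h⟩

theorem exists_of_dsc_lt_top {T : E →ₗ[ℂ] E} (h : dsc T < ⊤) :
    ∃ p : ℕ, LinearMap.range (T ^ (p + 1)) = LinearMap.range (T ^ p) := by
  obtain ⟨p, hp⟩ := ENat.ne_top_iff_exists.mp h.ne
  exact ⟨p, (dsc_le_iff T p).mp hp.ge⟩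

end AscDsc

/-! ### The positive answer to Q2 -/

section Positive

variable {H K : Type} [NormedAddCommGroup H] [InnerProductSpace ℂ H]
  [NormedAddCommGroup K] [InnerProductSpace ℂ K]
  (A : H →L[ℂ] H) (B : K →L[ℂ] K) (C : K →L[ℂ] H)

theorem mat_apply (v : H × K) : mat A B C v = (A v.1 + C v.2, B v.2) := rfl

/-- first coordinate of `M^k (x, y)` -/
noncomputable def fstPow (x : H) (y : K) : ℕ → H
  | 0 => x
  | (k + 1) => A (fstPow x y k) + C (((B : K →ₗ[ℂ] K) ^ k) y)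

theorem mat_pow (x : H) (y : K) (k : ℕ) :
    ((mat A B C) ^ k) (x, y) = (fstPow A B C x y k, ((B : K →ₗ[ℂ] K) ^ k) y) := by
  induction k with
  | zero => rfl
  | succ k ih =>
    rw [pow_succ', Module.End.mul_apply, ih, mat_apply, pow_succ' (B : K →ₗ[ℂ] K)]
    rfl

variable {A B C}


theorem adm_mem [CompleteSpace K] {p : ℕ} (hC : Admissible A B p C) (z : K) :
    C z ∈ (SS A p)ᗮ := by
  obtain ⟨J, hJ, hJ0⟩ := hC
  have : CompleteSpace (TT B p) :=
    (Submodule.isClosed_topologicalClosure _).completeSpace_coe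
  have h1 : z = (TT B p).starProjection z + (z - (TT B p).starProjection z) := by abel
  have h2 : z - (TT B p).starProjection z ∈ (TT B p)ᗮ :=
    Submodule.sub_starProjection_mem_orthogonal z
  have h3 : (TT B p).starProjection z ∈ TT B p := Submodule.starProjection_apply_mem _ z
  rw [h1, map_add, hJ0 _ h2, add_zero]
  have h4 := hJ ⟨_, h3⟩
  rw [show C ((TT B p).starProjection z) = _ from h4]
  exact (J _).2

theorem mem_both {S : Submodule ℂ H} {x : H} (h1 : x ∈ S) (h2 : x ∈ Sᗮ) : x = 0 := by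
  have := (Submodule.mem_orthogonal S x).mp h2 x h1
  exact inner_self_eq_zero.mp this

/-- finite ascent of `M_C` -/
theorem asc_mat [CompleteSpace K] {p : ℕ} (hp : 1 ≤ p)
    (hA : LinearMap.ker ((A : H →ₗ[ℂ] H) ^ (p + 1)) = LinearMap.ker ((A : H →ₗ[ℂ] H) ^ p))
    (hC : Admissible A B p C) :
    LinearMap.ker ((mat A B C) ^ (p + 1)) = LinearMap.ker ((mat A B C) ^ p) := by
  apply le_antisymm
  swap
  · intro v hv
    rw [LinearMap.mem_ker] at hv ⊢
    rw [pow_succ', Module.End.mul_apply, hv, map_zero]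
  rintro ⟨x, y⟩ hv
  rw [LinearMap.mem_ker, mat_pow] at hv
  rw [LinearMap.mem_ker, mat_pow]
  have hu : A (fstPow A B C x y p) + C (((B : K →ₗ[ℂ] K) ^ p) y) = 0 := congrArg Prod.fst hv
  have hb : ((B : K →ₗ[ℂ] K) ^ (p + 1)) y = 0 := congrArg Prod.snd hv
  have hrA : ∀ z, A z ∈ SS A p := fun z => Submodule.mem_sup_left ⟨z, rfl⟩
  have hb1 : ((B : K →ₗ[ℂ] K) ^ p) y ∈ TT B p := by
    refine Submodule.le_topologicalClosure _ ⟨?_, ⟨y, rfl⟩⟩
    rw [SetLike.mem_coe, LinearMap.mem_ker]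
    rw [pow_succ', Module.End.mul_apply] at hb
    exact hb
  have hCb : C (((B : K →ₗ[ℂ] K) ^ p) y) = 0 := by
    refine mem_both (S := SS A p) ?_ (adm_mem hC _)
    rw [show C (((B : K →ₗ[ℂ] K) ^ p) y) = - A (fstPow A B C x y p) from
      eq_neg_of_add_eq_zero_right hu]
    exact neg_mem (hrA _)
  have hbp : ((B : K →ₗ[ℂ] K) ^ p) y = 0 := by
    obtain ⟨J, hJ, hJ0⟩ := hC
    have h1 := hJ ⟨_, hb1⟩
    have h2 : J ⟨_, hb1⟩ = 0 := by
      apply Subtype.ext
      rw [← h1]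
      exact hCb
    have h3 := (J.map_eq_zero_iff).mp h2
    exact congrArg Subtype.val h3
  rw [hCb, add_zero] at hu
  have hmono : ∀ j, j ≤ p → LinearMap.ker ((A : H →ₗ[ℂ] H) ^ j) ≤ SS A p := by
    intro j hj z hz
    refine Submodule.mem_sup_right ?_
    rw [LinearMap.mem_ker] at hz ⊢
    obtain ⟨k, rfl⟩ := Nat.exists_eq_add_of_le hj
    rw [add_comm, pow_add, Module.End.mul_apply, hz, map_zero]
  have key : ∀ j, j ≤ p → ((A : H →ₗ[ℂ] H) ^ (j + 1)) (fstPow A B C x y (p - j)) = 0 ∧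
      fstPow A B C x y p = ((A : H →ₗ[ℂ] H) ^ j) (fstPow A B C x y (p - j)) := by
    intro j
    induction j with
    | zero =>
      intro _
      refine ⟨?_, rfl⟩
      simpa using hu
    | succ j ih =>
      intro hj
      obtain ⟨h1, h2⟩ := ih (by omega)
      have h3 : fstPow A B C x y (p - j) = A (fstPow A B C x y (p - (j + 1))) +
          C (((B : K →ₗ[ℂ] K) ^ (p - (j + 1))) y) := by
        rw [show p - j = (p - (j + 1)) + 1 by omega]
        rfl
      have h4 : C (((B : K →ₗ[ℂ] K) ^ (p - (j + 1))) y) = 0 := by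
        refine mem_both (S := SS A p) ?_ (adm_mem hC _)
        have h5 : C (((B : K →ₗ[ℂ] K) ^ (p - (j + 1))) y) = fstPow A B C x y (p - j) -
            A (fstPow A B C x y (p - (j + 1))) := by rw [h3]; abel
        rw [h5]
        exact sub_mem (hmono (j + 1) hj h1) (hrA _)
      rw [h4, add_zero] at h3
      constructor
      · rw [pow_succ, Module.End.mul_apply]
        rw [h3] at h1
        exact h1
      · rw [h2, h3, pow_succ, Module.End.mul_apply]
        rfl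
  obtain ⟨h1, h2⟩ := key p le_rfl
  rw [Nat.sub_self] at h1 h2
  have h3 : fstPow A B C x y 0 ∈ LinearMap.ker ((A : H →ₗ[ℂ] H) ^ (p + 1)) := h1
  rw [hA, LinearMap.mem_ker, ← h2] at h3
  rw [h3, hbp]
  rfl

/-- finite descent of `M_C` -/
theorem dsc_mat [CompleteSpace H] [CompleteSpace K] {p : ℕ} (hp : 1 ≤ p)
    (hB : LinearMap.range ((B : K →ₗ[ℂ] K) ^ (p + 1)) = LinearMap.range ((B : K →ₗ[ℂ] K) ^ p))
    (hBc : IsClosed (LinearMap.range ((B : K →ₗ[ℂ] K) ^ p) : Set K))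
    (hS : IsClosed (SS A p : Set H))
    (hC : Admissible A B p C) :
    LinearMap.range ((mat A B C) ^ (p + 1)) = LinearMap.range ((mat A B C) ^ p) := by
  apply le_antisymm
  · rintro _ ⟨v, rfl⟩
    rw [pow_succ, Module.End.mul_apply]
    exact ⟨_, rfl⟩
  have hTT : TT B p = LinearMap.ker (B : K →ₗ[ℂ] K) ⊓ LinearMap.range ((B : K →ₗ[ℂ] K) ^ p) := by
    apply IsClosed.submodule_topologicalClosure_eq
    exact (ContinuousLinearMap.isClosed_ker B).inter hBc
  obtain ⟨J, hJ, hJ0⟩ := hC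
  have : CompleteSpace (TT B p) :=
    (Submodule.isClosed_topologicalClosure _).completeSpace_coe
  have : CompleteSpace (SS A p) := hS.completeSpace_coe
  -- correction of elements of `N(B^p)`
  have corr : ∀ n ∈ LinearMap.ker ((B : K →ₗ[ℂ] K) ^ p), ∀ k, k ≤ p →
      ∃ n' ∈ LinearMap.ker ((B : K →ₗ[ℂ] K) ^ p), (∃ z, n - n' = B z) ∧
        ∀ j, p - k ≤ j → j < p → C (((B : K →ₗ[ℂ] K) ^ j) n') = 0 := by
    intro n hn k
    induction k with
    | zero =>
      intro _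
      exact ⟨n, hn, ⟨0, by simp⟩, fun j h1 h2 => by omega⟩
    | succ k ih =>
      intro hk
      obtain ⟨n', hn', ⟨z, hz⟩, hj⟩ := ih (by omega)
      set j0 := p - (k + 1) with hj0
      have ht : (TT B p).starProjection (((B : K →ₗ[ℂ] K) ^ j0) n') ∈ TT B p :=
        Submodule.starProjection_apply_mem _ _
      set t := (TT B p).starProjection (((B : K →ₗ[ℂ] K) ^ j0) n') with htdef
      have ht2 := ht
      rw [hTT] at ht2
      obtain ⟨htk, htr⟩ := ht2
      rw [SetLike.mem_coe, LinearMap.mem_ker] at htk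
      rw [SetLike.mem_coe, ← range_stable (B : K →ₗ[ℂ] K) hB j0] at htr
      obtain ⟨w0, hw0⟩ := htr
      rw [add_comm, pow_add, Module.End.mul_apply] at hw0
      set w := ((B : K →ₗ[ℂ] K) ^ p) w0 with hw
      have hwB : ∀ j, j0 < j → ((B : K →ₗ[ℂ] K) ^ j) w = 0 := by
        intro j hjj
        obtain ⟨i, rfl⟩ := Nat.exists_eq_add_of_lt hjj
        rw [show j0 + i + 1 = i + (1 + j0) by ring, pow_add, pow_add, Module.End.mul_apply,
          Module.End.mul_apply, hw0, pow_one, htk, map_zero]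
      refine ⟨n' - w, ?_, ?_, ?_⟩
      · rw [LinearMap.mem_ker, map_sub, hwB p (by omega), sub_zero]
        exact hn'
      · refine ⟨z + ((B : K →ₗ[ℂ] K) ^ (p - 1)) w0, ?_⟩
        have h1 : w = B (((B : K →ₗ[ℂ] K) ^ (p - 1)) w0) := by
          rw [hw]
          conv_lhs => rw [show p = (p - 1) + 1 by omega, pow_succ']
          rfl
        rw [map_add, ← hz, ← h1]
        abel
      · intro j h1 h2
        by_cases hjj : j = j0
        · subst hjj
          rw [map_sub, hw0]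
          apply hJ0
          exact Submodule.sub_starProjection_mem_orthogonal _
        · rw [map_sub, hwB j (by omega), sub_zero]
          exact hj j (by omega) h2
  rintro _ ⟨⟨x, y⟩, rfl⟩
  -- decompose
  have hy : ∃ z, ((B : K →ₗ[ℂ] K) ^ p) y = ((B : K →ₗ[ℂ] K) ^ (p + 1)) z := by
    have : ((B : K →ₗ[ℂ] K) ^ p) y ∈ LinearMap.range ((B : K →ₗ[ℂ] K) ^ (p + 1)) := by
      rw [hB]; exact ⟨y, rfl⟩
    obtain ⟨z, hz⟩ := this
    exact ⟨z, hz.symm⟩
  obtain ⟨z, hz⟩ := hy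
  obtain ⟨n', hn', ⟨z', hz'⟩, hj⟩ := corr (y - B z) (by
    rw [LinearMap.mem_ker, map_sub, hz, pow_succ, Module.End.mul_apply]
    exact sub_self _) p le_rfl
  have hy2 : y = B (z + z') + n' := by
    rw [map_add, ← hz']; abel
  set z'' := z + z' with hz''
  obtain ⟨s, hs, s', hs', hss⟩ : ∃ s ∈ SS A p, ∃ s' ∈ (SS A p)ᗮ, x - C z'' = s + s' := by
    refine ⟨(SS A p).starProjection (x - C z''), Submodule.starProjection_apply_mem _ _,
      (x - C z'') - (SS A p).starProjection (x - C z''),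
      Submodule.sub_starProjection_mem_orthogonal _, by abel⟩
  obtain ⟨_, ⟨a, rfl⟩, u, hu, hau⟩ := Submodule.mem_sup.mp hs
  have ht := hJ (J.symm ⟨s', hs'⟩)
  rw [ContinuousLinearEquiv.apply_symm_apply] at ht
  set t := J.symm ⟨s', hs'⟩ with htdef
  have hBt : B (t : K) = 0 := by
    have h1 := hTT.le t.2
    exact h1.1
  have hv : ((x, y) : H × K) = mat A B C (a, z'' + t) + (u, n') := by
    rw [mat_apply]
    apply Prod.ext
    · show x = A a + C (z'' + t) + u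
      have h1 : x = (x - C z'') + C z'' := by abel
      rw [h1, hss, ← hau, map_add C z'' (t : K), ht]
      show (A a + u) + s' + C z'' = A a + (C z'' + s') + u
      abel
    · show y = B (z'' + t) + n'
      rw [map_add, hBt, add_zero]
      exact hy2
  have hker : ((mat A B C) ^ p) (u, n') = 0 := by
    have h1 : ((u, n') : H × K) = (u, 0) + (0, n') := by simp
    rw [h1, map_add, mat_pow, mat_pow]
    have h2 : ∀ k, k ≤ p → fstPow A B C 0 n' k = 0 := by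
      intro k
      induction k with
      | zero => intro _; rfl
      | succ k ih =>
        intro hk
        show A (fstPow A B C 0 n' k) + C (((B : K →ₗ[ℂ] K) ^ k) n') = 0
        rw [ih (by omega), map_zero, zero_add]
        exact hj k (by omega) (by omega)
    have h3 : ∀ k, fstPow A B C u 0 k = ((A : H →ₗ[ℂ] H) ^ k) u := by
      intro k
      induction k with
      | zero => rfl
      | succ k ih =>
        show A (fstPow A B C u 0 k) + C (((B : K →ₗ[ℂ] K) ^ k) 0) = _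
        rw [ih, map_zero, map_zero, add_zero, pow_succ', Module.End.mul_apply]
        rfl
    rw [h2 p le_rfl, h3 p, LinearMap.mem_ker.mp hu, LinearMap.mem_ker.mp hn', map_zero]
    simp
  refine ⟨(a, z'' + t), ?_⟩
  rw [hv, map_add, hker, add_zero, pow_succ, Module.End.mul_apply]

/-- **Q2, positive answer** (condition (iii) is not needed). -/
theorem positive [CompleteSpace H] [CompleteSpace K] {p : ℕ} (hp : 1 ≤ p)
    (hA : asc (A : H →ₗ[ℂ] H) ≤ p) (hB : dsc (B : K →ₗ[ℂ] K) ≤ p) (hR : RightDrazin B)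
    (hE : CondE A B p) (hC : Admissible A B p C) : Drazin (mat A B C) := by
  rw [asc_le_iff] at hA
  have hB' := (dsc_le_iff _ _).mp hB
  obtain ⟨n, hn, hcl⟩ := hR
  have hnp : n ≤ p := by rw [hn] at hB; exact_mod_cast hB
  have hn' := (dsc_le_iff _ _).mp hn.le
  have hBc : IsClosed (LinearMap.range ((B : K →ₗ[ℂ] K) ^ p) : Set K) := by
    obtain ⟨k, rfl⟩ := Nat.exists_eq_add_of_le hnp
    rw [range_stable _ hn' k]
    exact hcl
  constructor
  · exact lt_of_le_of_lt ((asc_le_iff _ _).mpr (asc_mat hp hA hC)) (ENat.natCast_lt_top p)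
  · exact lt_of_le_of_lt ((dsc_le_iff _ _).mpr (dsc_mat hp hB' hBc hE.1 hC))
      (ENat.natCast_lt_top p)

end Positive


/-! ### The counterexample for Q1 -/

section Negative

open scoped InnerProductSpace

/-- `ℓ²(ℕ × ℕ)` -/
abbrev L2 : Type := lp (fun _ : ℕ × ℕ => ℂ) 2

/-- basis vectors -/
noncomputable def e (a : ℕ × ℕ) : L2 := lp.single 2 a 1

theorem inner_e (a : ℕ × ℕ) (x : L2) : ⟪e a, x⟫_ℂ = x a := by
  unfold e
  rw [lp.inner_single_left]
  simp

theorem e_apply (a b : ℕ × ℕ) : (e a : L2) b = if b = a then 1 else 0 := by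
  unfold e
  rw [lp.single_apply, Pi.single_apply]

theorem orthonormal_e : Orthonormal ℂ e := by
  rw [orthonormal_iff_ite]
  intro a b
  rw [inner_e, e_apply]

/-- the shift of indices -/
def sg (a : ℕ × ℕ) : ℕ × ℕ := (a.1, a.2 + 1)

theorem sg_inj : Function.Injective sg := by
  rintro ⟨a, b⟩ ⟨c, d⟩ h
  simp only [sg, Prod.mk.injEq, Nat.add_right_cancel_iff] at h
  exact Prod.ext h.1 h.2

/-- the forward shift of infinite multiplicity, as an isometry -/
noncomputable def Aiso : L2 →ₗᵢ[ℂ] L2 :=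
  (orthonormal_e.comp sg sg_inj).orthogonalFamily.linearIsometry

/-- the forward shift of infinite multiplicity -/
noncomputable def A₀ : L2 →L[ℂ] L2 := Aiso.toContinuousLinearMap

theorem A₀_e (a : ℕ × ℕ) : A₀ (e a) = e (sg a) := by
  show Aiso (e a) = e (sg a)
  unfold Aiso
  rw [show e a = lp.single 2 a (1 : ℂ) from rfl, OrthogonalFamily.linearIsometry_apply_single]
  simp

/-- the backward shift -/
noncomputable def V₀ : L2 →L[ℂ] L2 := ContinuousLinearMap.adjoint A₀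

theorem V₀_apply (y : L2) (a : ℕ × ℕ) : V₀ y a = y (sg a) := by
  rw [← inner_e, V₀, ContinuousLinearMap.adjoint_inner_right, A₀_e, inner_e]

theorem V₀_A₀ (x : L2) : V₀ (A₀ x) = x := by
  apply lp.ext
  funext a
  rw [V₀_apply, ← inner_e, ← A₀_e]
  show ⟪Aiso (e a), Aiso x⟫_ℂ = _
  rw [LinearIsometry.inner_map_map, inner_e]

theorem V₀_e_zero (i : ℕ) : V₀ (e (i, 0)) = 0 := by
  apply lp.ext
  funext a
  rw [V₀_apply, e_apply]
  simp [sg]

theorem A₀_apply_sg (x : L2) (a : ℕ × ℕ) : A₀ x (sg a) = x a := by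
  rw [← V₀_apply, V₀_A₀]

theorem A₀_apply_zero (x : L2) (i : ℕ) : A₀ x (i, 0) = 0 := by
  rw [← inner_e, ← ContinuousLinearMap.adjoint_inner_left]
  show ⟪V₀ (e (i, 0)), x⟫_ℂ = 0
  rw [V₀_e_zero, inner_zero_left]

theorem V₀_e_sg (a : ℕ × ℕ) : V₀ (e (sg a)) = e a := by
  rw [← A₀_e, V₀_A₀]

/-- the weights -/
noncomputable def wt (a : ℕ × ℕ) : ℂ := if a.2 = 0 then ((1 / ((a.1 : ℝ) + 1) : ℝ) : ℂ) else 1

theorem wt_norm (a : ℕ × ℕ) : ‖wt a‖ ≤ 1 := by
  unfold wt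
  split_ifs
  · rw [Complex.norm_real, Real.norm_of_nonneg (by positivity), div_le_one (by positivity)]
    have : (0 : ℝ) ≤ a.1 := Nat.cast_nonneg _
    linarith
  · simp

theorem wt_ne (a : ℕ × ℕ) : wt a ≠ 0 := by
  unfold wt
  split_ifs
  · exact_mod_cast (by positivity : (0 : ℝ) < 1 / ((a.1 : ℝ) + 1)).ne'
  · exact one_ne_zero

theorem wt_sg (a : ℕ × ℕ) : wt (sg a) = 1 := by
  simp [wt, sg]

theorem D_mem (x : L2) : Memℓp (fun a => wt a * x a) 2 := by
  refine (lp.memℓp x).mono' fun a => ?_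
  rw [norm_mul]
  exact mul_le_of_le_one_left (norm_nonneg _) (wt_norm a)

/-- the diagonal operator -/
noncomputable def D₀ : L2 →L[ℂ] L2 :=
  LinearMap.mkContinuous
    { toFun := fun x => ⟨fun a => wt a * x a, D_mem x⟩
      map_add' := fun x y => by
        apply lp.ext
        funext a
        show wt a * (x + y : L2) a = wt a * x a + wt a * y a
        rw [lp.coeFn_add, Pi.add_apply, mul_add]
      map_smul' := fun c x => by
        apply lp.ext
        funext a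
        show wt a * (c • x : L2) a = c * (wt a * x a)
        rw [lp.coeFn_smul, Pi.smul_apply, smul_eq_mul]
        ring } 1 (fun x => by
    rw [one_mul]
    refine lp.norm_mono (by norm_num) fun a => ?_
    show ‖wt a * x a‖ ≤ ‖x a‖
    rw [norm_mul]
    exact mul_le_of_le_one_left (norm_nonneg _) (wt_norm a))

theorem D₀_apply (x : L2) (a : ℕ × ℕ) : D₀ x a = wt a * x a := rfl

theorem D₀_inj : Function.Injective D₀ := by
  intro x y h
  apply lp.ext
  funext a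
  have : D₀ x a = D₀ y a := by rw [h]
  rw [D₀_apply, D₀_apply] at this
  exact mul_left_cancel₀ (wt_ne a) this

theorem V₀_D₀ (x : L2) : V₀ (D₀ x) = V₀ x := by
  apply lp.ext
  funext a
  rw [V₀_apply, V₀_apply, D₀_apply, wt_sg, one_mul]

/-- the operator `B` -/
noncomputable def B₀ : L2 →L[ℂ] L2 := D₀ ∘L V₀

theorem B₀_apply (x : L2) : B₀ x = D₀ (V₀ x) := rfl

theorem B₀_D₀ (x : L2) : B₀ (D₀ x) = B₀ x := by
  rw [B₀_apply, B₀_apply, V₀_D₀]

theorem B₀_A₀ (x : L2) : B₀ (A₀ x) = D₀ x := by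
  rw [B₀_apply, V₀_A₀]

theorem D₀_A₀ (x : L2) : D₀ (A₀ x) = A₀ x := by
  apply lp.ext
  funext ⟨i, n⟩
  rw [D₀_apply]
  rcases n with _ | n
  · rw [A₀_apply_zero, mul_zero]
  · rw [show ((i, n + 1) : ℕ × ℕ) = sg (i, n) from rfl, wt_sg, one_mul]

theorem D₀_e_zero (i : ℕ) : D₀ (e (i, 0)) = wt (i, 0) • e (i, 0) := by
  apply lp.ext
  funext a
  rw [D₀_apply, lp.coeFn_smul, Pi.smul_apply, smul_eq_mul, e_apply]
  split_ifs with h
  · rw [h]
  · simp

/-! #### eigenvectors -/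

theorem exists_geo (c : ℂ) (hc : ‖c‖ < 1) (i : ℕ) : ∃ h : L2, h = e (i, 0) + c • A₀ h := by
  have h1 : ‖c • A₀‖ < 1 := by
    rw [norm_smul]
    have : ‖A₀‖ ≤ 1 := by
      refine ContinuousLinearMap.opNorm_le_bound _ zero_le_one fun x => ?_
      rw [one_mul]
      exact (Aiso.norm_map x).le
    calc ‖c‖ * ‖A₀‖ ≤ ‖c‖ * 1 := by gcongr
      _ < 1 := by rw [mul_one]; exact hc
  have h2 : IsUnit (1 - c • A₀) := isUnit_one_sub_of_norm_lt_one h1
  obtain ⟨u, hu⟩ := h2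
  refine ⟨(↑u⁻¹ : L2 →L[ℂ] L2) (e (i, 0)), ?_⟩
  have h3 : ((u : L2 →L[ℂ] L2) * (↑u⁻¹ : L2 →L[ℂ] L2)) (e (i, 0)) = e (i, 0) := by
    rw [Units.mul_inv]; rfl
  rw [hu] at h3
  have h4 : (↑u⁻¹ : L2 →L[ℂ] L2) (e (i, 0)) - c • A₀ ((↑u⁻¹ : L2 →L[ℂ] L2) (e (i, 0))) =
      e (i, 0) := h3
  exact sub_eq_iff_eq_add.mp h4

/-- the geometric vector -/
noncomputable def geo (c : ℂ) (hc : ‖c‖ < 1) (i : ℕ) : L2 := (exists_geo c hc i).choose

theorem geo_eq (c : ℂ) (hc : ‖c‖ < 1) (i : ℕ) :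
    geo c hc i = e (i, 0) + c • A₀ (geo c hc i) := (exists_geo c hc i).choose_spec

theorem V₀_geo (c : ℂ) (hc : ‖c‖ < 1) (i : ℕ) : V₀ (geo c hc i) = c • geo c hc i := by
  conv_lhs => rw [geo_eq c hc i]
  rw [map_add, map_smul, V₀_A₀, V₀_e_zero, zero_add]

theorem geo_zero (c : ℂ) (hc : ‖c‖ < 1) (i j : ℕ) :
    geo c hc i (j, 0) = if j = i then 1 else 0 := by
  rw [geo_eq c hc i, lp.coeFn_add, Pi.add_apply, lp.coeFn_smul, Pi.smul_apply, A₀_apply_zero,
    smul_zero, add_zero, e_apply]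
  simp

theorem dimInf_top {M : Submodule ℂ L2} (v : ℕ → L2) (hv : ∀ i, v i ∈ M) (m : ℕ)
    (hv1 : ∀ i j, v i (j, m) = if j = i then 1 else 0) : dimInf M = ⊤ := by
  have hli : LinearIndependent ℂ (fun i => (⟨v i, hv i⟩ : M)) := by
    apply LinearIndependent.of_pairwise_dual_eq_zero_one
      (f := fun j => ((lp.evalCLM (E := fun _ : ℕ × ℕ => ℂ) ℂ 2 (j, m) : L2 →ₗ[ℂ] ℂ)) ∘ₗ
        M.subtype)
    · intro i j hij
      show v j (i, m) = 0
      rw [hv1, if_neg hij]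
    · intro i
      show v i (i, m) = 1
      rw [hv1, if_pos rfl]
  have h1 : Cardinal.aleph0 ≤ Module.rank ℂ M := by
    have := hli.cardinal_le_rank
    simpa using this
  unfold dimInf
  rw [Cardinal.toENat_eq_top]
  exact h1

theorem dfc_top (μ : ℂ) (hμ : ‖μ‖ < 1) : dfc (A₀ - μ • ContinuousLinearMap.id ℂ L2) = ⊤ := by
  have hc : ‖(starRingEnd ℂ) μ‖ < 1 := by rwa [RCLike.norm_conj]
  refine dimInf_top (fun i => geo _ hc i) (fun i => ?_) 0 (fun i j => geo_zero _ hc i j)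
  rw [Submodule.mem_orthogonal]
  rintro _ ⟨x, rfl⟩
  show ⟪A₀ x - μ • x, geo _ hc i⟫_ℂ = 0
  rw [inner_sub_left, inner_smul_left, ← ContinuousLinearMap.adjoint_inner_right]
  show ⟪x, V₀ (geo _ hc i)⟫_ℂ - _ = 0
  rw [V₀_geo, inner_smul_right, sub_self]

theorem nul_top (μ : ℂ) (hμ0 : 0 < ‖μ‖) (hμ : ‖μ‖ < 1) :
    nul (B₀ - μ • ContinuousLinearMap.id ℂ L2) = ⊤ := by
  have hne : μ ≠ 0 := norm_pos_iff.mp hμ0
  refine dimInf_top (fun i => (wt (i, 0) / μ) • e (i, 0) + A₀ (geo μ hμ i)) (fun i => ?_) 1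
    (fun i j => ?_)
  · rw [LinearMap.mem_ker]
    show B₀ ((wt (i, 0) / μ) • e (i, 0) + A₀ (geo μ hμ i)) -
      μ • ((wt (i, 0) / μ) • e (i, 0) + A₀ (geo μ hμ i)) = 0
    have h1 : B₀ ((wt (i, 0) / μ) • e (i, 0) + A₀ (geo μ hμ i)) =
        wt (i, 0) • e (i, 0) + μ • A₀ (geo μ hμ i) := by
      rw [map_add, map_smul, B₀_A₀, B₀_apply, V₀_e_zero, map_zero, smul_zero, zero_add]
      conv_lhs => rw [geo_eq μ hμ i]
      rw [map_add, map_smul, D₀_A₀, D₀_e_zero]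
    rw [h1, smul_add, smul_smul, mul_div_cancel₀ _ hne, sub_self]
  · rw [lp.coeFn_add, Pi.add_apply, lp.coeFn_smul, Pi.smul_apply, e_apply,
      show ((j, 1) : ℕ × ℕ) = sg (j, 0) from rfl, A₀_apply_sg, geo_zero]
    simp [sg]

/-! #### the hypotheses -/

theorem A₀_inj : Function.Injective A₀ := Aiso.injective

theorem ker_A₀_pow (n : ℕ) : LinearMap.ker ((A₀ : L2 →ₗ[ℂ] L2) ^ n) = ⊥ := by
  induction n with
  | zero => exact LinearMap.ker_id
  | succ n ih =>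
    rw [LinearMap.ker_eq_bot'] at ih ⊢
    intro x hx
    rw [pow_succ, Module.End.mul_apply] at hx
    have := ih _ hx
    exact A₀_inj (by rw [map_zero]; exact this)

theorem asc_A₀ : asc (A₀ : L2 →ₗ[ℂ] L2) = 0 := by
  have h := (asc_le_iff (A₀ : L2 →ₗ[ℂ] L2) 0).mpr (by rw [ker_A₀_pow, ker_A₀_pow])
  exact le_antisymm h (zero_le)

theorem isClosed_range_A₀ : IsClosed (LinearMap.range (A₀ : L2 →ₗ[ℂ] L2) : Set L2) := by
  have h := Aiso.isometry.isClosedEmbedding.isClosed_range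
  exact h

theorem leftDrazin_A₀ : LeftDrazin A₀ := by
  refine ⟨0, asc_A₀, ?_⟩
  rw [zero_add, pow_one]
  exact isClosed_range_A₀

theorem range_B₀ : LinearMap.range ((B₀ : L2 →ₗ[ℂ] L2) ^ (1 + 1)) =
    LinearMap.range ((B₀ : L2 →ₗ[ℂ] L2) ^ 1) := by
  apply le_antisymm
  · rintro _ ⟨x, rfl⟩
    rw [pow_succ (B₀ : L2 →ₗ[ℂ] L2) 1, Module.End.mul_apply]
    exact ⟨_, rfl⟩
  · rintro _ ⟨x, rfl⟩
    refine ⟨A₀ x, ?_⟩
    rw [pow_succ, Module.End.mul_apply, pow_one]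
    show B₀ (B₀ (A₀ x)) = B₀ x
    rw [B₀_A₀, B₀_D₀]

theorem dsc_B₀ : dsc (B₀ : L2 →ₗ[ℂ] L2) ≤ 1 := (dsc_le_iff _ 1).mpr range_B₀

theorem SS_A₀ (p : ℕ) : SS A₀ p = LinearMap.range (A₀ : L2 →ₗ[ℂ] L2) := by
  unfold SS
  rw [ker_A₀_pow, sup_bot_eq]

theorem SS_orth (p : ℕ) : (SS A₀ p)ᗮ = LinearMap.ker (V₀ : L2 →ₗ[ℂ] L2) := by
  rw [SS_A₀]
  exact ContinuousLinearMap.orthogonal_range A₀

theorem ker_B₀ : LinearMap.ker (B₀ : L2 →ₗ[ℂ] L2) = LinearMap.ker (V₀ : L2 →ₗ[ℂ] L2) := by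
  ext x
  rw [LinearMap.mem_ker, LinearMap.mem_ker]
  show D₀ (V₀ x) = 0 ↔ V₀ x = 0
  constructor
  · intro h
    exact D₀_inj (by rw [map_zero]; exact h)
  · intro h
    rw [h, map_zero]

theorem TT_B₀ {p : ℕ} (hp : 1 ≤ p) : TT B₀ p = LinearMap.ker (V₀ : L2 →ₗ[ℂ] L2) := by
  have hr : LinearMap.range ((B₀ : L2 →ₗ[ℂ] L2) ^ p) = LinearMap.range (B₀ : L2 →ₗ[ℂ] L2) := by
    obtain ⟨k, rfl⟩ := Nat.exists_eq_add_of_le hp
    rw [range_stable _ range_B₀ k, pow_one]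
  unfold TT
  rw [hr, ker_B₀]
  apply le_antisymm
  · apply Submodule.topologicalClosure_minimal _ inf_le_left
    exact ContinuousLinearMap.isClosed_ker V₀
  · intro x hx
    have hx' : ∀ a, x (sg a) = 0 := by
      intro a
      rw [← V₀_apply, show V₀ x = 0 from hx]
      rfl
    have hs := lp.hasSum_single (p := 2) (by norm_num) x
    have hmem : ∀ a, lp.single 2 a (x a) ∈
        LinearMap.ker (V₀ : L2 →ₗ[ℂ] L2) ⊓ LinearMap.range (B₀ : L2 →ₗ[ℂ] L2) := by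
      rintro ⟨i, n⟩
      rcases n with _ | n
      · have h1 : lp.single 2 ((i, 0) : ℕ × ℕ) (x (i, 0)) = x (i, 0) • e (i, 0) := by
          unfold e
          rw [← lp.single_smul, smul_eq_mul, mul_one]
        rw [h1]
        refine Submodule.smul_mem _ _ ⟨V₀_e_zero i, ⟨(wt (i, 0))⁻¹ • e (sg (i, 0)), ?_⟩⟩
        show B₀ _ = _
        rw [map_smul, B₀_apply, V₀_e_sg, D₀_e_zero, smul_smul, inv_mul_cancel₀ (wt_ne _), one_smul]
      · have h1 : x (i, n + 1) = 0 := hx' (i, n)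
        rw [h1, lp.single_zero]
        exact zero_mem _
    refine mem_closure_of_tendsto hs (Filter.Eventually.of_forall fun s => ?_)
    exact Submodule.sum_mem _ fun a _ => hmem a

theorem B₀_not_surj : ¬ Function.Surjective B₀ := by
  intro hs
  have hD : Function.Surjective D₀ := by
    intro y
    obtain ⟨x, hx⟩ := hs y
    exact ⟨V₀ x, hx⟩
  let E := ContinuousLinearEquiv.ofBijective D₀
    (LinearMap.ker_eq_bot.mpr D₀_inj) (LinearMap.range_eq_top.mpr hD)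
  obtain ⟨n, hn⟩ := exists_nat_gt ‖(E.symm : L2 →L[ℂ] L2)‖
  have h1 : (E.symm : L2 →L[ℂ] L2) (D₀ (e (n, 0))) = e (n, 0) := E.symm_apply_apply _
  have h2 := (E.symm : L2 →L[ℂ] L2).le_opNorm (D₀ (e (n, 0)))
  rw [h1, D₀_e_zero, norm_smul, orthonormal_e.1 (n, 0), mul_one] at h2
  have h3 : ‖wt (n, 0)‖ = 1 / ((n : ℝ) + 1) := by
    unfold wt
    rw [if_pos rfl, Complex.norm_real, Real.norm_of_nonneg (by positivity)]
  rw [h3, mul_one_div, le_div_iff₀ (by positivity)] at h2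
  linarith

theorem not_drazin (p : ℕ) (hp : 1 ≤ p) (C : L2 →L[ℂ] L2) (hC : Admissible A₀ B₀ p C) :
    ¬ Drazin (mat A₀ B₀ C) := by
  rintro ⟨-, hd⟩
  have hinj : ∀ v, mat A₀ B₀ C v = 0 → v = 0 := by
    rintro ⟨x, y⟩ hv
    rw [mat_apply] at hv
    have h1 : A₀ x + C y = 0 := congrArg Prod.fst hv
    have h2 : B₀ y = 0 := congrArg Prod.snd hv
    have hy : y ∈ TT B₀ p := by
      rw [TT_B₀ hp, ← ker_B₀]
      exact h2
    have h3 : C y = 0 := by
      refine mem_both (S := SS A₀ p) ?_ (adm_mem hC _)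
      rw [eq_neg_of_add_eq_zero_right h1]
      exact neg_mem (Submodule.mem_sup_left ⟨x, rfl⟩)
    obtain ⟨J, hJ, hJ0⟩ := hC
    have h4 := hJ ⟨y, hy⟩
    have h5 : J ⟨y, hy⟩ = 0 := by
      apply Subtype.ext
      rw [← h4]
      exact h3
    have h6 := congrArg Subtype.val ((J.map_eq_zero_iff).mp h5)
    have h7 : y = 0 := h6
    rw [h7, map_zero, add_zero] at h1
    have h8 : x = 0 := A₀_inj (by rw [map_zero]; exact h1)
    rw [h7, h8]
    rfl
  have hinj2 : Function.Injective (mat A₀ B₀ C) := (injective_iff_map_eq_zero _).mpr hinj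
  obtain ⟨k, hk⟩ := exists_of_dsc_lt_top hd
  have hinjk : Function.Injective ((mat A₀ B₀ C) ^ k) := by
    rw [Module.End.coe_pow]
    exact hinj2.iterate k
  apply B₀_not_surj
  intro y
  have h1 : ((mat A₀ B₀ C) ^ k) (0, y) ∈ LinearMap.range ((mat A₀ B₀ C) ^ (k + 1)) := by
    rw [hk]; exact ⟨_, rfl⟩
  obtain ⟨w, hw⟩ := h1
  rw [pow_succ, Module.End.mul_apply] at hw
  have h2 := hinjk hw
  exact ⟨w.2, congrArg Prod.snd h2⟩

theorem exists_adm (p : ℕ) (hp : 1 ≤ p) : ∃ C : L2 →L[ℂ] L2, Admissible A₀ B₀ p C := by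
  have heq : TT B₀ p = (SS A₀ p)ᗮ := by rw [TT_B₀ hp, SS_orth]
  have : CompleteSpace (TT B₀ p) :=
    (Submodule.isClosed_topologicalClosure _).completeSpace_coe
  refine ⟨(TT B₀ p).starProjection,
    (LinearIsometryEquiv.ofEq _ _ heq).toContinuousLinearEquiv, fun x => ?_, fun x hx => ?_⟩
  · rw [Submodule.starProjection_eq_self_iff.mpr x.2]
    rfl
  · rw [Submodule.starProjection_apply, Submodule.orthogonalProjectionOnto_eq_zero_iff.mpr hx]
    rfl

end Negative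

/-- **Both questions.** Q1 is false: on `ℓ²(ℕ × ℕ)` there are `A`, `B` satisfying its hypotheses
such that for every `p ≥ 1` condition (E) holds, admissible `C` exist, and `M_C` is not Drazin
invertible for any admissible `C`. Q2 is true (even without condition (iii)). -/
theorem result :
    (∃ A B : L2 →L[ℂ] L2, Q1Fails A B) ∧
    (∀ (H K : Type) [NormedAddCommGroup H] [InnerProductSpace ℂ H] [CompleteSpace H]
      [NormedAddCommGroup K] [InnerProductSpace ℂ K] [CompleteSpace K]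
      (A : H →L[ℂ] H) (B : K →L[ℂ] K), Q2Holds A B) := by
  refine ⟨⟨A₀, B₀, leftDrazin_A₀, ?_, ?_, ?_⟩, ?_⟩
  · exact lt_of_le_of_lt dsc_B₀ (ENat.natCast_lt_top 1)
  · refine ⟨1, one_pos, fun μ h0 h1 => ?_⟩
    rw [dfc_top μ h1, nul_top μ h0 h1]
  · intro p hp
    refine ⟨?_, ?_, ⟨?_, ?_⟩, exists_adm p hp, fun C hC => not_drazin p hp C hC⟩
    · rw [asc_A₀]; exact zero_le
    · exact dsc_B₀.trans (by exact_mod_cast hp)
    · rw [SS_A₀]; exact isClosed_range_A₀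
    · rw [SS_orth, TT_B₀ hp]
  · intro H K _ _ _ _ _ _ A B p hp hA hB hR hE C hC
    exact positive hp hA hB hR hE hC

end Pool.Agent.Results.MP_632fda_an.Weakenings
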